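import Pool.Agent.H60.BL.Pair
import Pool.Graph.R_pool_sql_team_seeded_63374d34.N467.BL.All

/-! The products of the generators belong to the cone. -/

set_option autoImplicit false
set_option maxRecDepth 1000000

namespace Pool.Agent.H60.BL

open Finset Polynomial
open Pool.Agent.N467.BL
open Pool.Agent.N467.BL.ChkA (okVec_spec coefT_nil cP gP pair_zero vC valN evN evN_pos lin1 lin2 K_forget toN)
open Pool.Agent.TH389.BL (ev evv toP K)

theorem kfacts {n : ℕ} (h2 : 2 ≤ n) (h6 : n ≤ 6) : kx n = (PQ n).length ∧ kx n ≤ 15 ∧ 0 < kx n ∧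
    okPar (parx n) = true ∧ Mnx n = 2 ^ (88 * (ddx n + 1) * 16) ∧
    Wnx n = (List.range 15).map fun i => Nat.pow 2 (88 * (ddx n + 1) * i) := by
  have h := kOK_all n (mem5 h2 h6)
  simp only [kOK, Bool.and_eq_true, decide_eq_true_eq] at h
  obtain ⟨⟨⟨⟨⟨a1, a2⟩, a3⟩, a4⟩, a5⟩, a6⟩ := h
  exact ⟨Nat.eq_of_beq_eq_true a1, Nat.le_of_ble_eq_true a2, (blt_iff _ _).1 a3, a4,
    Nat.eq_of_beq_eq_true a5, a6⟩

theorem ct_facts {c : ℕ} (h0 : 0 < c) (h : c < 34) : (∃ a ∈ ctT.getD c [], 0 < a) ∧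
    ∀ a ∈ ctT.getD c [], a < 65536 := by
  have h1 := List.all_eq_true.1 ctT_ok c (List.mem_range.2 h)
  simp only [Bool.or_eq_true, Bool.and_eq_true, List.all_eq_true, List.any_eq_true] at h1
  rcases h1 with h1 | ⟨⟨a, ha, ha0⟩, h2⟩
  · have := Nat.eq_of_beq_eq_true h1
    omega
  · exact ⟨⟨a, ha, (blt_iff _ _).1 ha0⟩, fun a ha => (blt_iff _ _).1 (h2 a ha)⟩

theorem Fps_len : ∀ n ∈ [2, 3, 4, 5, 6], (Nat.beq (Fps n).length (2 * n) &&
    (Fps n).all fun f => Nat.beq f.length (kx n)) = true := by decide +kernel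

theorem Fp_len {n k : ℕ} (h2 : 2 ≤ n) (h6 : n ≤ 6) (hk : k < 2 * n) :
    ((Fps n).getD k []).length = kx n := by
  have h := Fps_len n (mem5 h2 h6)
  simp only [Bool.and_eq_true, List.all_eq_true] at h
  have h1 := Nat.eq_of_beq_eq_true h.1
  rw [List.getD_eq_getElem _ _ (by omega)]
  exact Nat.eq_of_beq_eq_true (h.2 _ (List.getElem_mem _))

theorem vecP_ok {n j k : ℕ} (h2 : 2 ≤ n) (h6 : n ≤ 6) (hk : k < 2 * n)
    (hv : okVec (kx n) (dlx n) (nlx n) (vecR n j) = true) :
    okVec (kx n) (dlx n) (nlx n) (vecP n j k) = true := by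
  obtain ⟨-, h3⟩ := okVec_spec hv
  simp only [okVec, Bool.and_eq_true, List.all_eq_true]
  refine ⟨?_, ?_⟩
  · unfold vecP prV
    rw [List.length_map, Fp_len h2 h6 hk]
    exact Nat.beq_refl _
  · intro p hp
    unfold vecP prV at hp
    rw [List.mem_map] at hp
    obtain ⟨i, -, rfl⟩ := hp
    exact ⟨Nat.ble_eq_true_of_le (h3 i).1, Nat.ble_eq_true_of_le (h3 i).2⟩

/-- the identity for a product -/
theorem pair_real {τ : Ty} (hok : okAll τ = true) (hD : τ.D.length + 1 ≤ 8) (hE : τ.E.length ≤ 12)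
    (hA2 : 2 ≤ τ.s + τ.m) (hA6 : τ.s + τ.m ≤ 6) (hB2 : 2 ≤ τ.s + τ.l) (hB6 : τ.s + τ.l ≤ 6)
    (hC2 : 2 ≤ τ.C.length) (hC6 : τ.C.length ≤ 6) {g h : List (List ℤ)}
    (hg : okVec (kx (τ.s + τ.m)) 8 56506 g = true) (hh : okVec (kx (τ.s + τ.l)) 8 56506 h = true)
    {c j k : ℕ} (hc0 : 0 < c) (hc : c < 34) (hk : k < 2 * τ.C.length)
    (hdc : (ctT.getD c []).length ≤ dcx τ.C.length)
    (hv : okVec (kx τ.C.length) (dlx τ.C.length) (nlx τ.C.length) (vecR τ.C.length j) = true)
    (hmod : dotM (Mnx τ.C.length) (h.map fun u => evZ u (Int.ofNat B1))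
      (cols (Mnx τ.C.length) (tpkF (Mnx τ.C.length) B1 τ (Wnx τ.C.length))
        (g.map fun u => evZ u (Int.ofNat B1))) % Mnx τ.C.length =
      (cv c * pk τ.C.length j k) % Mnx τ.C.length) (q : ℝ) :
    gR τ q (evv g q) (evv h q) =
      fun i => evN (ctT.getD c []) (q - 4) * evv (vecP τ.C.length j k) q i := by
  obtain ⟨a1, a2, a3, a4, a5, a6⟩ := kfacts hC2 hC6
  obtain ⟨b1, b2, -, -, -, -⟩ := kfacts hA2 hA6
  obtain ⟨c1, c2, -, -, -, -⟩ := kfacts hB2 hB6
  have hM0 : 0 < Mnx τ.C.length := by rw [a5]; positivity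
  have hW : (List.map (fun w : ℕ => (w : ℤ)) (Wnx τ.C.length)) =
      (List.range 15).map fun i => (2 : ℤ) ^ ((parx τ.C.length).kb * ((parx τ.C.length).d + 1) * i) := by
    rw [a6, List.map_map]
    refine List.map_congr_left fun i _ => ?_
    simp only [Function.comp_apply, Nat.pow_eq]
    push_cast
    rfl
  have hW1 : (List.map (fun w : ℕ => (w : ℤ)) (Wnx τ.C.length)).getD 1 0 =
      Int.ofNat ((Wnx τ.C.length).getD 1 0) := by
    simp only [List.getD_eq_getElem?_getD, List.getElem?_map]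
    cases (Wnx τ.C.length)[1]? <;> simp
  have hsz : okTab τ (parx τ.C.length).dt (parx τ.C.length).nt = true := by
    refine okTab_of_size τ 8 4096 (by omega) ?_
    calc 2 ^ τ.E.length ≤ 2 ^ 12 := Nat.pow_le_pow_right (by norm_num) hE
      _ = 4096 := by norm_num
  have hB : ((B1 : ℕ) : ℤ) = 2 ^ (parx τ.C.length).kb := by
    rw [B1_eq]; push_cast; rfl
  have hcf := ct_facts hc0 hc
  have hvP := vecP_ok hC2 hC6 hk hv
  have hz := pair_zero (parx τ.C.length) a4 τ ((B1 : ℕ) : ℤ) xB (Mnx τ.C.length)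
    (List.map (fun w : ℕ => (w : ℤ)) (Wnx τ.C.length)) hB (by
      show ((Nat.sub (Nat.pow 2 88) 4 : ℕ) : ℤ) = ((B1 : ℕ) : ℤ) - 4
      rw [B1_eq]
      norm_num) (by rw [a5]; rfl) hW hok hsz (by omega) (by omega) (by omega) g h
    (by rw [← b1]; exact hg) (by rw [← c1]; exact hh) [vecP τ.C.length j k]
    [pk τ.C.length j k] (by
      simp only [List.all_cons, List.all_nil, Bool.and_true]
      rw [← a1]; exact hvP) (by
      simp only [List.map_cons, List.map_nil, List.cons.injEq, and_true]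
      unfold pk
      rw [hW1]
      rfl) [(0, ctT.getD c [])] (by simp [parx]) (by
      intro e he
      simp only [List.mem_singleton] at he
      subst he
      exact ⟨by simp, hdc, hcf.2⟩)
    (tpkF (Mnx τ.C.length) B1 τ (Wnx τ.C.length)) (by simp [tpkF]) (by
      intro t ht b hb
      rw [tpkF, List.mem_map] at ht
      obtain ⟨b1', _, rfl⟩ := ht
      rw [List.mem_map] at hb
      obtain ⟨b2', _, rfl⟩ := hb
      exact (tpkF_entry hM0 B1 τ (Wnx τ.C.length) b1' b2').1) (by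
      intro i hi j hj
      have e : ((tpkF (Mnx τ.C.length) B1 τ (Wnx τ.C.length)).getD i []).getD j 0 =
          (jn τ ((PQ (τ.s + τ.m)).getD i []) ((PQ (τ.s + τ.l)).getD j []) fun θ =>
            gN (Mnx τ.C.length) (lfN (Mnx τ.C.length) B1 (Wnx τ.C.length) τ.C τ.D (PQ τ.C.length))
              τ.E θ) := by
        simp only [tpkF, List.getD_eq_getElem?_getD, List.getElem?_map, List.getElem?_eq_getElem hi,
          List.getElem?_eq_getElem hj, Option.map_some, Option.getD_some]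
      rw [e]
      exact (tpkF_entry hM0 B1 τ (Wnx τ.C.length) _ _).2) (by
      have e1 : vC xB [pk τ.C.length j k] [(0, ctT.getD c [])] = cv c * pk τ.C.length j k := by
        simp [vC, cv]
      rw [e1]
      exact hmod)
  funext i
  by_cases hi : i < (PQ τ.C.length).length
  · have h8 : aeval q (gP τ g h i) = aeval q (cP [vecP τ.C.length j k] i [(0, ctT.getD c [])]) := by
      rw [hz i hi]
    have h9 : aeval q (gP τ g h i) = gR τ q (evv g q) (evv h q) i := by
      simp only [gP, map_sum, map_mul, Pool.Agent.TH389.BL.aeval_toP]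
      rfl
    have h10 : aeval q (cP [vecP τ.C.length j k] i [(0, ctT.getD c [])]) =
        evN (ctT.getD c []) (q - 4) * evv (vecP τ.C.length j k) q i := by
      simp only [cP, List.map_cons, List.map_nil, List.sum_cons, List.sum_nil, add_zero, map_mul,
        Pool.Agent.TH389.BL.aeval_toP, evN, Polynomial.aeval_comp, map_sub, Polynomial.aeval_X,
        Polynomial.aeval_C]
      congr 2
    rw [← h9, h8, h10]
  · have h8 : (PQ τ.C.length).getD i [] = [] := List.getD_eq_default _ _ (by omega)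
    have h9 : τ.C ≠ [] := by
      intro h
      rw [h] at hC2
      simp at hC2
    have h10 : gR τ q (evv g q) (evv h q) i = 0 := by
      simp only [gR, h8, coefT_nil τ.C h9]
      simp [ev]
    have h12 := (okVec_spec hvP).1
    have h13 : evv (vecP τ.C.length j k) q i = 0 := by
      unfold evv
      rw [List.getD_eq_default _ _ (by omega)]
      rfl
    rw [h10, h13, mul_zero]

end Pool.Agent.H60.BL
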