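import Pool.Agent.H60.BL.Pos

/-! Certificates: a vector of polynomials belongs to a cone for all real numbers in an interval. -/

set_option autoImplicit false

namespace Pool.Agent.H60.BL

open Finset Polynomial
open Pool.Agent.N467.BL
open Pool.Agent.N467.BL.ChkA (eval_toP nP_toP_le okVec_spec)
open Pool.Agent.TH389.BL (ev evv toP K aeval_toP K_gen)

/-- decode `n` coefficients in base `b`, shifted by `h`; the rest -/
def dpr (b h : ℕ) : ℕ → ℕ → List ℤ × ℕ
  | 0, x => ([], x)
  | n + 1, x => match dpr b h n (Nat.div x b) with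
    | (l, r) => (Int.subNatNat (Nat.mod x b) h :: l, r)

/-- decode several polynomials, given their lengths -/
def dps (b h : ℕ) : List ℕ → ℕ → List (List ℤ)
  | [], _ => []
  | n :: ns, x => match dpr b h n x with
    | (l, r) => l :: dps b h ns r

/-- a vector of `k` polynomials: width, lengths, coefficients -/
def vecW (k : ℕ) (d : ℕ × ℕ × ℕ) : List (List ℤ) :=
  dps (Nat.pow 2 d.1) (Nat.pow 2 (Nat.pred d.1)) (digs k d.2.1) d.2.2

/-- the terms of a certificate -/
def decT (b h : ℕ) : List ℕ → ℕ → List (ℕ × List ℤ)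
  | g :: l :: s, x => match dpr b h l x with
    | (c, r) => (g, c) :: decT b h s r
  | _, _ => []

/-- combination of integer vectors -/
def cmb (GZ : List (List ℤ)) (k : ℕ) : List (ℕ × ℤ) → List ℤ
  | [] => List.replicate k 0
  | e :: t => List.zipWith (fun u v => e.2 * u + v) (GZ.getD e.1 []) (cmb GZ k t)

/-- sum of the norms -/
def nT : List (ℕ × List ℤ) → ℕ
  | [] => 0
  | e :: t => Nat.add (nrm e.2) (nT t)

/-- parameters of the certificates: evaluation points, norms, the generators and their values -/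
structure Q where
  T : ℕ
  B2 : ℕ
  k : ℕ
  dl : ℕ
  ny : ℕ
  ng : ℕ
  w : ℕ
  G : List (List (List ℤ))
  GZ : List (List ℤ)

/-- check of one certificate -/
def okPc (Z : Q) (good : Bool) (y : List (List ℤ)) (D A B : ℕ) (s : List ℤ)
    (t : List (ℕ × List ℤ)) : Bool :=
  posI Z.T A B D s && (t.all fun e => Nat.blt e.1 Z.GZ.length && posI Z.T A B D e.2) &&
    Nat.blt (Nat.add (Nat.mul (nrm s) Z.ny) (Nat.mul (nT t) Z.ng)) Z.B2 &&
    (!good || t.any fun e => Nat.blt e.1 Z.w) &&
    decide (y.map (fun p => evZ s (Int.ofNat Z.B2) * evZ p (Int.ofNat Z.B2)) =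
      cmb Z.GZ Z.k (t.map fun e => (e.1, evZ e.2 (Int.ofNat Z.B2))))

/-- check of one encoded certificate: width, header, coefficients -/
def okPd (Z : Q) (good : Bool) (y : List (List ℤ)) (c : ℕ × ℕ × ℕ × ℕ) : Bool :=
  match digs c.2.1 c.2.2.1 with
  | D :: A :: B :: ls :: hs =>
    match dpr (Nat.pow 2 c.1) (Nat.pow 2 (Nat.pred c.1)) ls c.2.2.2 with
    | (s, r) => Nat.blt 0 D && okPc Z good y D A B s
        (decT (Nat.pow 2 c.1) (Nat.pow 2 (Nat.pred c.1)) hs r)
  | _ => false

/-- the interval of a certificate -/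
def itv (c : ℕ × ℕ × ℕ × ℕ) : ℕ × ℕ × ℕ :=
  match digs c.2.1 c.2.2.1 with
  | D :: A :: B :: _ => (D, A, B)
  | _ => (1, 0, 0)

/-- the intervals cover everything up to `N / M` -/
def covr (N M : ℕ) : List (ℕ × ℕ × ℕ) → Bool
  | [] => false
  | [p] => Nat.ble (Nat.mul N p.1) (Nat.mul p.2.2 M)
  | p :: p' :: r => Nat.blt (Nat.mul p'.2.1 p.1) (Nat.mul p.2.2 p'.1) && covr N M (p' :: r)

/-- the first interval starts at most at `a / c` -/
def fstOK (a c : ℕ) : List (ℕ × ℕ × ℕ) → Bool
  | [] => false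
  | p :: _ => Nat.ble (Nat.mul p.2.1 c) (Nat.mul a p.1)

/-- check of a vector -/
def okRp (Z : Q) (a c N M : ℕ) (good : Bool) (y : List (List ℤ)) (cs : List (ℕ × ℕ × ℕ × ℕ)) :
    Bool :=
  okVec Z.k Z.dl Z.ny y && fstOK a c (cs.map itv) && covr N M (cs.map itv) &&
    cs.all (okPd Z good y)

/-! ### soundness -/

theorem cmb_length {GZ : List (List ℤ)} {k : ℕ} (hk : ∀ g ∈ GZ, g.length = k) :
    ∀ t : List (ℕ × ℤ), (∀ e ∈ t, e.1 < GZ.length) → (cmb GZ k t).length = k
  | [] => fun _ => by simp [cmb]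
  | e :: t => fun h => by
    have ih := cmb_length hk t fun e he => h e (List.mem_cons_of_mem _ he)
    have h1 : (GZ.getD e.1 []).length = k := by
      have h2 := h e (List.mem_cons_self)
      rw [List.getD_eq_getElem _ _ h2]
      exact hk _ (List.getElem_mem _)
    rw [cmb, List.length_zipWith, h1, ih, min_self]

theorem cmb_getD {GZ : List (List ℤ)} {k : ℕ} (hk : ∀ g ∈ GZ, g.length = k) {i : ℕ} (hi : i < k) :
    ∀ t : List (ℕ × ℤ), (∀ e ∈ t, e.1 < GZ.length) →
      (cmb GZ k t).getD i 0 = (t.map fun e => e.2 * (GZ.getD e.1 []).getD i 0).sum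
  | [] => fun _ => by simp [cmb, List.getD_eq_getElem?_getD]
  | e :: t => fun h => by
    have ih := cmb_getD hk hi t fun e he => h e (List.mem_cons_of_mem _ he)
    have hl := cmb_length hk t fun e he => h e (List.mem_cons_of_mem _ he)
    have h1 : (GZ.getD e.1 []).length = k := by
      have h2 := h e (List.mem_cons_self)
      rw [List.getD_eq_getElem _ _ h2]
      exact hk _ (List.getElem_mem _)
    rw [cmb, List.map_cons, List.sum_cons, ← ih]
    have h3 : i < (List.zipWith (fun u v => e.2 * u + v) (GZ.getD e.1 []) (cmb GZ k t)).length := by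
      rw [List.length_zipWith, h1, hl, min_self]; exact hi
    rw [List.getD_eq_getElem _ _ h3, List.getElem_zipWith]
    rw [List.getD_eq_getElem (GZ.getD e.1 []) _ (by omega), List.getD_eq_getElem (cmb GZ k t) _ (by omega)]

theorem nT_eq (t : List (ℕ × List ℤ)) : nT t = (t.map fun e => nrm e.2).sum := by
  induction t with
  | nil => rfl
  | cons e t ih =>
    rw [List.map_cons, List.sum_cons, ← ih]
    rfl

theorem K_lin {q : ℝ} {G : List (List (List ℤ))} {w : ℕ} (t : List (ℕ × List ℤ))
    (h : ∀ e ∈ t, e.1 < G.length ∧ 0 < ev e.2 q) :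
    K q G w (t.any fun e => Nat.blt e.1 w)
      (fun i => (t.map fun e => ev e.2 q * evv (G.getD e.1 []) q i).sum) := by
  induction t with
  | nil => simpa using K.zero
  | cons e t ih =>
    have h1 := h e (List.mem_cons_self)
    have h2 := ih fun e he => h e (List.mem_cons_of_mem _ he)
    have h3 := K.smul _ _ _ h1.2 (K_gen (q := q) (w := w) e.1 h1.1)
    have h4 := K.add _ _ _ _ h3 h2
    rw [List.any_cons]
    have h5 : Nat.blt e.1 w = decide (e.1 < w) := by
      rw [Bool.eq_iff_iff, decide_eq_true_iff]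
      exact ⟨fun h => Nat.le_of_ble_eq_true h, fun h => Nat.ble_eq_true_of_le h⟩
    rw [h5]
    simpa only [List.map_cons, List.sum_cons] using h4

theorem K_weaken' {q : ℝ} {G : List (List (List ℤ))} {w : ℕ} {b b' : Bool} {x : ℕ → ℝ}
    (hx : K q G w b x) (h : b' = true → b = true) : K q G w b' x := by
  cases b' with
  | true => rw [h rfl] at hx; exact hx
  | false =>
    cases b with
    | true => exact K.weak _ hx
    | false => exact hx

/-- what is assumed about the generators -/
structure Q.Ok (Z : Q) : Prop where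
  hG : ∀ g ∈ Z.G, g.length = Z.k ∧ ∀ i, nrm (g.getD i []) ≤ Z.ng
  hGZ : Z.GZ = Z.G.map fun g => g.map fun c => evZ c (Int.ofNat Z.B2)

theorem okPc_sound {Z : Q} (hZ : Z.Ok) {good : Bool} {y : List (List ℤ)} {D A B : ℕ} {s : List ℤ}
    {t : List (ℕ × List ℤ)} (hy : okVec Z.k Z.dl Z.ny y = true)
    (h : okPc Z good y D A B s t = true) (hD : 0 < D) {q : ℝ}
    (h1 : (A : ℝ) < q * D) (h2 : q * D < B) : K q Z.G Z.w good (evv y q) := by
  simp only [okPc, Bool.and_eq_true, decide_eq_true_eq, List.all_eq_true] at h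
  obtain ⟨⟨⟨⟨hs, ht⟩, hn⟩, hgood⟩, heq⟩ := h
  obtain ⟨hy1, hy2⟩ := okVec_spec hy
  have hGl : Z.GZ.length = Z.G.length := by rw [hZ.hGZ, List.length_map]
  have hGk : ∀ g ∈ Z.GZ, g.length = Z.k := by
    intro g hg
    rw [hZ.hGZ, List.mem_map] at hg
    obtain ⟨g', hg', rfl⟩ := hg
    rw [List.length_map]
    exact (hZ.hG g' hg').1
  have hti : ∀ e ∈ t, e.1 < Z.GZ.length := fun e he => Nat.le_of_ble_eq_true (ht e he).1
  have hspos : 0 < ev s q := posI_sound hs hD h1 h2
  have hkey : ∀ i, i < Z.k → toP s * toP (y.getD i []) =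
      (t.map fun e => toP e.2 * toP ((Z.G.getD e.1 []).getD i [])).sum := by
    intro i hi
    have hn' : nrm s * Z.ny + nT t * Z.ng < Z.B2 := Nat.le_of_ble_eq_true hn
    refine eq_of_eval (B := Z.B2) ?_ ?_
    · refine lt_of_le_of_lt (Nat.add_le_add ?_ ?_) hn'
      · exact (nP_mul_le _ _).trans (Nat.mul_le_mul (nP_toP_le s)
          ((nP_toP_le _).trans (hy2 i).2))
      · refine (nP_list_sum_le _).trans ?_
        rw [nT_eq, List.map_map, ← List.sum_map_mul_right]
        refine List.sum_le_sum fun e he => ?_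
        refine (nP_mul_le _ _).trans (Nat.mul_le_mul (nP_toP_le _) ((nP_toP_le _).trans ?_))
        have h3 : Z.G.getD e.1 [] ∈ Z.G := by
          rw [List.getD_eq_getElem _ _ (by rw [← hGl]; exact hti e he)]
          exact List.getElem_mem _
        exact (hZ.hG _ h3).2 i
    · have h4 := congrArg (fun l : List ℤ => l.getD i 0) heq
      rw [cmb_getD hGk hi _ (by
        intro e he
        rw [List.mem_map] at he
        obtain ⟨e', he', rfl⟩ := he
        exact hti e' he')] at h4
      rw [List.getD_eq_getElem _ _ (by rw [List.length_map, hy1]; exact hi), List.getElem_map,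
        List.map_map] at h4
      rw [eval_mul, eval_toP, eval_toP, List.getD_eq_getElem y _ (by rw [hy1]; exact hi)]
      rw [show ((Z.B2 : ℕ) : ℤ) = Int.ofNat Z.B2 from rfl, h4]
      rw [eval_listSum, List.map_map]
      refine congrArg List.sum (List.map_congr_left fun e he => ?_)
      simp only [Function.comp_apply]
      rw [eval_mul, eval_toP, eval_toP]
      have h5 : e.1 < Z.G.length := by rw [← hGl]; exact hti e he
      have h6 : (Z.GZ.getD e.1 []).getD i 0 = evZ ((Z.G.getD e.1 []).getD i []) (Int.ofNat Z.B2) := by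
        have h7 := (hZ.hG _ (List.getElem_mem h5)).1
        have e1 : Z.GZ.getD e.1 [] = (Z.G[e.1]).map fun c => evZ c (Int.ofNat Z.B2) := by
          rw [hZ.hGZ, List.getD_eq_getElem (List.map _ _) _ (by rw [List.length_map]; exact h5),
            List.getElem_map]
        rw [e1, List.getD_eq_getElem Z.G _ h5, List.getD_eq_getElem (List.map _ _) _
          (by rw [List.length_map, h7]; exact hi), List.getElem_map,
          List.getD_eq_getElem _ _ (by rw [h7]; exact hi)]
      rw [h6]
  have hev : ∀ i, ev s q * evv y q i = (t.map fun e => ev e.2 q * evv (Z.G.getD e.1 []) q i).sum := by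
    intro i
    by_cases hi : i < Z.k
    · have h3 := congrArg (aeval q) (hkey i hi)
      rw [map_mul, aeval_toP, aeval_toP, map_list_sum, List.map_map] at h3
      unfold evv
      rw [h3]
      refine congrArg List.sum (List.map_congr_left fun e he => ?_)
      simp only [Function.comp_apply]
      rw [map_mul, aeval_toP, aeval_toP]
    · have h3 : evv y q i = 0 := by
        unfold evv
        rw [List.getD_eq_default _ _ (by omega)]
        rfl
      rw [h3, mul_zero]
      symm
      apply List.sum_eq_zero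
      intro z hz
      rw [List.mem_map] at hz
      obtain ⟨e, he, rfl⟩ := hz
      have h5 : e.1 < Z.G.length := by rw [← hGl]; exact hti e he
      have h6 : evv (Z.G.getD e.1 []) q i = 0 := by
        unfold evv
        rw [List.getD_eq_getElem _ _ h5, List.getD_eq_default]
        · rfl
        · rw [(hZ.hG _ (List.getElem_mem h5)).1]; omega
      rw [h6, mul_zero]
  have hK := K_lin (q := q) (G := Z.G) (w := Z.w) t fun e he =>
    ⟨by rw [← hGl]; exact hti e he, posI_sound (ht e he).2 hD h1 h2⟩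
  have hK2 : K q Z.G Z.w good (fun i => ev s q * evv y q i) := by
    have e1 : (fun i => ev s q * evv y q i) =
        fun i => (t.map fun e => ev e.2 q * evv (Z.G.getD e.1 []) q i).sum := funext hev
    rw [e1]
    refine K_weaken' hK fun hb => ?_
    rw [hb] at hgood
    simpa using hgood
  have hK3 := K.smul _ (ev s q)⁻¹ _ (inv_pos.2 hspos) hK2
  have e2 : (fun i => (ev s q)⁻¹ * (ev s q * evv y q i)) = evv y q := by
    funext i
    rw [← mul_assoc, inv_mul_cancel₀ hspos.ne', one_mul]
  rwa [e2] at hK3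

theorem okPd_sound {Z : Q} (hZ : Z.Ok) {good : Bool} {y : List (List ℤ)} {c : ℕ × ℕ × ℕ × ℕ}
    (hy : okVec Z.k Z.dl Z.ny y = true) (h : okPd Z good y c = true) {q : ℝ}
    (h1 : ((itv c).2.1 : ℝ) < q * (itv c).1) (h2 : q * (itv c).1 < (itv c).2.2) :
    0 < (itv c).1 ∧ K q Z.G Z.w good (evv y q) := by
  unfold okPd at h
  unfold itv at h1 h2 ⊢
  rcases hd : digs c.2.1 c.2.2.1 with _ | ⟨D, _ | ⟨A, _ | ⟨B, _ | ⟨ls, hs⟩⟩⟩⟩
  · rw [hd] at h; simp at h
  · rw [hd] at h; simp at h
  · rw [hd] at h; simp at h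
  · rw [hd] at h; simp at h
  · rw [hd] at h h1 h2
    simp only [Bool.and_eq_true] at h h1 h2 ⊢
    exact ⟨Nat.le_of_ble_eq_true h.1, okPc_sound hZ hy h.2 (Nat.le_of_ble_eq_true h.1) h1 h2⟩

theorem covr_spec {N M : ℕ} (hM : 0 < M) {q : ℝ} (hN : q * M < N) :
    ∀ l : List (ℕ × ℕ × ℕ), (∀ p ∈ l, 0 < p.1) → covr N M l = true →
      (∀ p, l.head? = some p → (p.2.1 : ℝ) < q * p.1) →
      ∃ p ∈ l, (p.2.1 : ℝ) < q * p.1 ∧ q * p.1 < p.2.2
  | [] => fun _ h _ => by simp [covr] at h
  | [p] => fun hp h hh => by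
    have h1 : N * p.1 ≤ p.2.2 * M := Nat.le_of_ble_eq_true h
    have h2 : 0 < p.1 := hp p (by simp)
    refine ⟨p, by simp, hh p rfl, ?_⟩
    have h1' : (N : ℝ) * p.1 ≤ p.2.2 * M := by exact_mod_cast h1
    have h2' : (0 : ℝ) < p.1 := by exact_mod_cast h2
    have hM' : (0 : ℝ) < M := by exact_mod_cast hM
    have h3 : q * p.1 * M < p.2.2 * M := by
      have := mul_lt_mul_of_pos_right hN h2'
      nlinarith
    exact lt_of_mul_lt_mul_right h3 hM'.le
  | p :: p' :: r => fun hp h hh => by
    simp only [covr, Bool.and_eq_true] at h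
    have h1 : p'.2.1 * p.1 < p.2.2 * p'.1 := Nat.le_of_ble_eq_true h.1
    by_cases hq : q * p.1 < p.2.2
    · exact ⟨p, by simp, hh p rfl, hq⟩
    · have h2 : (0 : ℝ) < p.1 := by exact_mod_cast hp p (by simp)
      have h3 : (0 : ℝ) < p'.1 := by exact_mod_cast hp p' (by simp)
      have h1' : (p'.2.1 : ℝ) * p.1 < p.2.2 * p'.1 := by exact_mod_cast h1
      obtain ⟨z, hz, hz'⟩ := covr_spec hM hN (p' :: r)
        (fun x hx => hp x (List.mem_cons_of_mem _ hx)) h.2 (by
          intro x hx
          simp only [List.head?_cons, Option.some.injEq] at hx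
          subst hx
          push Not at hq
          have h4 : (p'.2.1 : ℝ) * p.1 < q * p'.1 * p.1 := by
            calc (p'.2.1 : ℝ) * p.1 < p.2.2 * p'.1 := h1'
              _ ≤ q * p.1 * p'.1 := by exact mul_le_mul_of_nonneg_right hq h3.le
              _ = q * p'.1 * p.1 := by ring
          exact lt_of_mul_lt_mul_right h4 h2.le)
      exact ⟨z, List.mem_cons_of_mem _ hz, hz'⟩

theorem itv_pos (c : ℕ × ℕ × ℕ × ℕ) {Z : Q} {good : Bool} {y : List (List ℤ)}
    (h : okPd Z good y c = true) : 0 < (itv c).1 := by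
  unfold okPd at h
  unfold itv
  rcases hd : digs c.2.1 c.2.2.1 with _ | ⟨D, _ | ⟨A, _ | ⟨B, _ | ⟨ls, hs⟩⟩⟩⟩
  · rw [hd] at h; simp at h
  · rw [hd] at h; simp at h
  · rw [hd] at h; simp at h
  · rw [hd] at h; simp at h
  · rw [hd] at h
    simp only [Bool.and_eq_true] at h ⊢
    exact Nat.le_of_ble_eq_true h.1

/-- the vector belongs to the cone for all `q` between `a / c` and `N / M` -/
theorem okRp_sound {Z : Q} (hZ : Z.Ok) {a c N M : ℕ} (hc : 0 < c) (hM : 0 < M) {good : Bool}
    {y : List (List ℤ)} {cs : List (ℕ × ℕ × ℕ × ℕ)} (h : okRp Z a c N M good y cs = true) {q : ℝ}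
    (h1 : (a : ℝ) < q * c) (h2 : q * M < N) : K q Z.G Z.w good (evv y q) := by
  simp only [okRp, Bool.and_eq_true, List.all_eq_true] at h
  obtain ⟨⟨⟨hy, hf⟩, hcv⟩, hcs⟩ := h
  have hpos : ∀ p ∈ cs.map itv, 0 < p.1 := by
    intro p hp
    rw [List.mem_map] at hp
    obtain ⟨c', hc', rfl⟩ := hp
    exact itv_pos c' (hcs c' hc')
  obtain ⟨p, hp, h3, h4⟩ := covr_spec hM h2 (cs.map itv) hpos hcv (by
    intro p hp
    cases hl : cs.map itv with
    | nil => rw [hl] at hp; simp at hp
    | cons x l =>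
      rw [hl] at hp hf
      simp only [List.head?_cons, Option.some.injEq] at hp
      subst hp
      have h5 : x.2.1 * c ≤ a * x.1 := Nat.le_of_ble_eq_true hf
      have h6 : 0 < x.1 := hpos x (by rw [hl]; simp)
      have h5' : (x.2.1 : ℝ) * c ≤ a * x.1 := by exact_mod_cast h5
      have h6' : (0 : ℝ) < x.1 := by exact_mod_cast h6
      have hc' : (0 : ℝ) < c := by exact_mod_cast hc
      have h7 : (x.2.1 : ℝ) * c < q * x.1 * c := by
        have := mul_lt_mul_of_pos_right h1 h6'
        nlinarith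
      exact lt_of_mul_lt_mul_right h7 hc'.le)
  rw [List.mem_map] at hp
  obtain ⟨c', hc', rfl⟩ := hp
  exact (okPd_sound hZ hy (hcs c' hc') h3 h4).2

end Pool.Agent.H60.BL
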