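import Pool.Agent.H60.BL.Rep
import Pool.Agent.H60.BL.RepU
import Pool.Graph.R_pool_sql_team_seeded_63374d34.N467.BL.GlueL

/-! The check of the products of generators. -/

set_option autoImplicit false
set_option maxRecDepth 1000000

namespace Pool.Agent.H60.BL

open Finset Polynomial
open Pool.Agent.N467.BL
open Pool.Agent.N467.BL.ChkA (okVec_spec coefT_nil evN evN_pos cP gP pair_zero vC valN lin1 lin2)
open Pool.Agent.TH389.BL (ev evv toP K)

/-- permuted vector -/
def prV (f : List ℕ) (v : List (List ℤ)) : List (List ℤ) := f.map fun i => v.getD i []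

/-- the `j`-th product, permuted by the `k`-th symmetry -/
def vecP (n j k : ℕ) : List (List ℤ) := prV ((Fps n).getD k []) (vecR n j)

/-- packed value -/
def pk (n j k : ℕ) : ℕ :=
  res (Mnx n) (pkv (Int.ofNat B1) (Int.ofNat ((Wnx n).getD 1 0)) (vecP n j k))

/-- values of the `j`-th product -/
def valR (n j : ℕ) : List ℤ := ((rus n).getD (Nat.div j 32) []).getD (Nat.mod j 32) []

/-- packed value, from the table of values -/
def pku (n j k : ℕ) : ℕ :=
  res (Mnx n) (evZ (((Fps n).getD k []).map fun i => (valR n j).getD i 0)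
    (Int.ofNat ((Wnx n).getD 1 0)))

/-- check of the table of values -/
def okU (n : ℕ) : List (ℕ × ℕ × ℕ) → List (List ℤ) → Bool
  | [], [] => true
  | v :: vs, u :: us => decide ((vecW (kx n) v).map (fun p => evZ p (Int.ofNat B1)) = u) && okU n vs us
  | _, _ => false

theorem pku_eq {n j : ℕ} (h : (vecR n j).map (fun p => evZ p (Int.ofNat B1)) = valR n j) (k : ℕ) :
    pku n j k = pk n j k := by
  unfold pku pk pkv vecP prV
  rw [List.map_map, ← h]
  congr 2
  refine List.map_congr_left fun i _ => ?_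
  simp only [Function.comp_apply, List.getD_eq_getElem?_getD, List.getElem?_map]
  cases (vecR n j)[i]? <;> simp [evZ]

/-- value of the scalar factor -/
def cv (c : ℕ) : ℕ := valN xB (ctT.getD c [])

/-- check of a row -/
def chkR (n : ℕ) (cl : List ℕ) (good : Bool) : ℕ → List (List ℤ) → List ℕ → Bool
  | _, [], s => s.isEmpty
  | wb, h :: hz, c :: j :: k :: s =>
      (Nat.blt 0 c && Nat.blt c 34 && Nat.blt k (Nat.mul 2 n) && Nat.blt j (nR n) &&
        (!(good && Nat.blt 0 wb) || Nat.blt j (wR n)) && Nat.ble (ctT.getD c []).length (dcx n)) &&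
      Nat.beq (Nat.mod (dotM (Mnx n) h cl) (Mnx n)) (Nat.mod (Nat.mul (cv c) (pku n j k)) (Mnx n)) &&
      chkR n cl good (Nat.pred wb) hz s
  | _, _ :: _, _ => false

/-- check of a block -/
def chkB (n : ℕ) (T : List (List ℕ)) (hz : List (List ℤ)) (wb : ℕ) :
    ℕ → List (List ℤ) → List (ℕ × ℕ) → Bool
  | _, [], [] => true
  | wa, g :: gz, d :: ds => chkR n (cols (Mnx n) T g) (Nat.blt 0 wa) wb hz (digs d.1 d.2) &&
      chkB n T hz wb (Nat.pred wa) gz ds
  | _, _, _ => false

/-- new times all -/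
def chkA (τ : Ty) (ds : List (ℕ × ℕ)) : Bool :=
  chkB τ.C.length (tpkF (Mnx τ.C.length) B1 τ (Wnx τ.C.length)) (hall (τ.s + τ.l)) (wGx (τ.s + τ.l))
    23 hn6 ds

/-- old times new -/
def chkO (τ : Ty) (ds : List (ℕ × ℕ)) : Bool :=
  chkB τ.C.length (tpkF (Mnx τ.C.length) B1 τ (Wnx τ.C.length)) hn6 23 (wGs (τ.s + τ.m))
    (hold (τ.s + τ.m)) ds

/-! ### soundness of the recursion -/

theorem blt_iff (a b : ℕ) : Nat.blt a b = true ↔ a < b :=
  ⟨fun h => Nat.le_of_ble_eq_true h, fun h => Nat.ble_eq_true_of_le h⟩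

theorem chkR_spec (n : ℕ) (cl : List ℕ) (good : Bool) : ∀ (wb : ℕ) (hz : List (List ℤ)) (s : List ℕ),
    chkR n cl good wb hz s = true → ∀ i (hi : i < hz.length), ∃ c j k, 0 < c ∧ c < 34 ∧ k < 2 * n ∧
      j < nR n ∧ (good = true → i < wb → j < wR n) ∧ (ctT.getD c []).length ≤ dcx n ∧
      dotM (Mnx n) hz[i] cl % Mnx n = (cv c * pku n j k) % Mnx n
  | _, [], s => fun _ i hi => by simp at hi
  | wb, h :: hz, [] => fun hh => by simp [chkR] at hh
  | wb, h :: hz, [_] => fun hh => by simp [chkR] at hh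
  | wb, h :: hz, [_, _] => fun hh => by simp [chkR] at hh
  | wb, h :: hz, c :: j :: k :: s => fun hh i hi => by
    simp only [chkR, Bool.and_eq_true] at hh
    obtain ⟨⟨⟨⟨⟨⟨⟨h1, h2⟩, h3⟩, h4⟩, h5⟩, h8⟩, h6⟩, h7⟩ := hh
    cases i with
    | zero =>
      refine ⟨c, j, k, (blt_iff _ _).1 h1, (blt_iff _ _).1 h2, (blt_iff _ _).1 h3, (blt_iff _ _).1 h4,
        fun hg hw => ?_, Nat.le_of_ble_eq_true h8, Nat.eq_of_beq_eq_true h6⟩
      rw [hg, (blt_iff _ _).2 hw] at h5
      simpa [blt_iff] using h5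
    | succ i =>
      obtain ⟨c', j', k', a1, a2, a3, a4, a5, a7, a6⟩ := chkR_spec n cl good (Nat.pred wb) hz s h7 i
        (by simpa using hi)
      refine ⟨c', j', k', a1, a2, a3, a4, fun hg hw => a5 hg ?_, a7, by simpa using a6⟩
      rw [Nat.pred_eq_sub_one]
      omega

theorem chkB_spec (n : ℕ) (T : List (List ℕ)) (hz : List (List ℤ)) (wb : ℕ) :
    ∀ (wa : ℕ) (gz : List (List ℤ)) (ds : List (ℕ × ℕ)), chkB n T hz wb wa gz ds = true →
    ∀ a (ha : a < gz.length) i (hi : i < hz.length), ∃ c j k, 0 < c ∧ c < 34 ∧ k < 2 * n ∧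
      j < nR n ∧ (a < wa → i < wb → j < wR n) ∧ (ctT.getD c []).length ≤ dcx n ∧
      dotM (Mnx n) hz[i] (cols (Mnx n) T gz[a]) % Mnx n = (cv c * pku n j k) % Mnx n
  | _, [], _ => fun _ a ha => by simp at ha
  | _, _ :: _, [] => fun h => by simp [chkB] at h
  | wa, g :: gz, d :: ds => fun h a ha i hi => by
    simp only [chkB, Bool.and_eq_true] at h
    cases a with
    | zero =>
      obtain ⟨c, j, k, a1, a2, a3, a4, a5, a7, a6⟩ := chkR_spec n _ _ wb hz _ h.1 i hi
      exact ⟨c, j, k, a1, a2, a3, a4, fun h1 h2 => a5 ((blt_iff _ _).2 h1) h2, a7, by simpa using a6⟩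
    | succ a =>
      obtain ⟨c, j, k, a1, a2, a3, a4, a5, a7, a6⟩ := chkB_spec n T hz wb (Nat.pred wa) gz ds h.2 a
        (by simpa using ha) i hi
      refine ⟨c, j, k, a1, a2, a3, a4, fun h1 h2 => a5 ?_ h2, a7, by simpa using a6⟩
      rw [Nat.pred_eq_sub_one]
      omega

/-! ### the data of the parameters -/

def kOK (n : ℕ) : Bool := Nat.beq (kx n) (PQ n).length && Nat.ble (kx n) 15 && Nat.blt 0 (kx n) &&
  okPar (parx n) && Nat.beq (Mnx n) (2 ^ (88 * (ddx n + 1) * 16)) &&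
  decide (Wnx n = (List.range 15).map fun i => Nat.pow 2 (88 * (ddx n + 1) * i))

theorem kOK_all : ∀ n ∈ [2, 3, 4, 5, 6], kOK n = true := by decide +kernel

/-- sizes of the generators -/
theorem Gx_ok : ∀ n ∈ [2, 3, 4, 5, 6], ((Gx n).all fun g => okVec (kx n) 8 56506 g) = true := by
  decide +kernel

theorem Gx_ok' : ∀ n ∈ [2, 3, 4, 5, 6], ((Gx n).all fun g => okVec (kx n) 8 (ngx n) g) = true := by
  decide +kernel

theorem hall_ok : ∀ n ∈ [2, 3, 4, 5, 6],
    (decide (hall n = (Gx n).map fun g => g.map fun c => evZ c (Int.ofNat B1))) = true := by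
  decide +kernel

theorem hold_ok : ∀ n ∈ [2, 3, 4, 5, 6],
    (decide (hold n = (Gs n).map fun g => g.map fun c => evZ c (Int.ofNat B1))) = true := by
  decide +kernel

theorem hn6_ok : (decide (hn6 = N6.map fun g => g.map fun c => evZ c (Int.ofNat B1))) = true := by
  decide +kernel

theorem gzs_ok : ∀ n ∈ [2, 3, 4, 5, 6],
    (decide (gzs n = (Gx n).map fun g => g.map fun c => evZ c (Int.ofNat B2))) = true := by
  decide +kernel

theorem ctT_ok : ((List.range 34).all fun c => Nat.beq c 0 || ((ctT.getD c []).any (fun a => Nat.blt 0 a) &&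
    (ctT.getD c []).all fun a => Nat.blt a 65536)) = true := by decide +kernel

end Pool.Agent.H60.BL
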