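import Pool.Graph.R_pool_sql_team_seeded_63374d34.N467.BL.Chk

/-! Positivity of integer polynomials on an interval, and certificates for vectors of polynomials:
the polynomials are evaluated at one large integer. -/

set_option autoImplicit false

namespace Pool.Agent.H60.BL

open Finset Polynomial
open Pool.Agent.N467.BL
open Pool.Agent.TH389.BL (ev evv toP K aeval_toP K_gen)

/-- `∑ p_i X ^ i Y ^ (n - i)` -/
def hv (X : ℤ) (Y : ℕ) : ℕ → List ℤ → ℤ
  | n + 1, c :: p => c * Int.ofNat (Nat.pow Y (n + 1)) + X * hv X Y n p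
  | _, _ => 0

/-- bound for the norm -/
def hb (U W : ℕ) : ℕ → List ℤ → ℕ
  | n + 1, c :: p => Nat.add (Nat.mul c.natAbs (Nat.pow W (n + 1))) (Nat.mul U (hb U W n p))
  | _, _ => 0

/-- sum of `n` digits in base `T`; `T` if these are not all digits -/
def dsum (T : ℕ) : ℕ → ℕ → ℕ
  | 0, 0 => 0
  | 0, _ + 1 => T
  | n + 1, v => Nat.add (Nat.mod v T) (dsum T n (Nat.div v T))

/-- the polynomial of the digits -/
noncomputable def Qd (T : ℕ) : ℕ → ℕ → ℤ[X]
  | 0, _ => 0
  | n + 1, v => C ((v % T : ℕ) : ℤ) + X * Qd T n (v / T)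

theorem Qd_spec {T : ℕ} (hT : 0 < T) : ∀ (n v : ℕ), dsum T n v < T →
    (Qd T n v).eval (T : ℤ) = v ∧ nP (Qd T n v) ≤ dsum T n v ∧
      ∀ t : ℝ, 0 < t → 0 ≤ aeval t (Qd T n v) ∧ (0 < v → 0 < aeval t (Qd T n v))
  | 0, 0 => fun _ => by simp [Qd, nP_zero]
  | 0, v + 1 => fun h => by simp [dsum] at h
  | n + 1, v => fun h => by
    have h' : v % T + dsum T n (v / T) < T := h
    obtain ⟨h1, h2, h3⟩ := Qd_spec hT n (v / T) (by omega)
    refine ⟨?_, ?_, ?_⟩
    · rw [Qd, eval_add, eval_C, eval_mul, eval_X, h1]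
      exact_mod_cast Nat.mod_add_div v T
    · rw [Qd]
      refine (nP_add_le _ _).trans ?_
      rw [nP_C, nP_X_mul]
      show ((v % T : ℕ) : ℤ).natAbs + nP (Qd T n (v / T)) ≤ v % T + dsum T n (v / T)
      rw [Int.natAbs_natCast]
      omega
    · intro t ht
      obtain ⟨h4, h5⟩ := h3 t ht
      have e : aeval t (Qd T (n + 1) v) = ((v % T : ℕ) : ℝ) + t * aeval t (Qd T n (v / T)) := by
        rw [Qd, map_add, map_mul, aeval_X, aeval_C]
        simp only [algebraMap_int_eq, eq_intCast, Int.cast_natCast]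
      have h6 : (0 : ℝ) ≤ ((v % T : ℕ) : ℝ) := Nat.cast_nonneg _
      refine ⟨by rw [e]; positivity, fun hv => ?_⟩
      rw [e]
      by_cases h7 : 0 < v % T
      · have : (0 : ℝ) < ((v % T : ℕ) : ℝ) := by exact_mod_cast h7
        have := mul_nonneg ht.le h4
        linarith
      · have h8 : 0 < v / T := by
          by_contra h9
          have := Nat.mod_add_div v T
          have h10 : v / T = 0 := Nat.eq_zero_of_not_pos h9
          rw [h10, Nat.mul_zero] at this
          omega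
        have := mul_pos ht (h5 h8)
        linarith

/-- the homogenized polynomial -/
noncomputable def Hd (A B D : ℕ) : ℕ → List ℤ → ℤ[X]
  | n + 1, c :: p => C c * (C (D : ℤ) * (1 + X)) ^ (n + 1) + (C (A : ℤ) + C (B : ℤ) * X) * Hd A B D n p
  | _, _ => 0

theorem Hd_eval (A B D T : ℕ) : ∀ (n : ℕ) (p : List ℤ),
    (Hd A B D n p).eval (T : ℤ) = hv ((A : ℤ) + B * T) (D * (1 + T)) n p
  | 0, _ => by simp [Hd, hv]
  | n + 1, [] => by simp [Hd, hv]
  | n + 1, c :: p => by
    rw [Hd, hv, eval_add, eval_mul, eval_mul, Hd_eval A B D T n p]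
    simp only [eval_C, eval_pow, eval_mul, eval_add, eval_one, eval_X]
    have : Int.ofNat (Nat.pow (D * (1 + T)) (n + 1)) = ((D : ℤ) * (1 + (T : ℤ))) ^ (n + 1) := by
      show ((((D * (1 + T)) ^ (n + 1) : ℕ)) : ℤ) = _
      push_cast
      ring
    rw [this]

theorem nP_one_add : nP (1 + X : ℤ[X]) ≤ 2 := by
  refine (nP_add_le _ _).trans ?_
  have h1 : nP (1 : ℤ[X]) = 1 := by
    have := nP_C 1
    simpa using this
  have h2 : nP (X : ℤ[X]) = 1 := by
    have := nP_X_mul (1 : ℤ[X])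
    rwa [mul_one, h1] at this
  omega

theorem nP_lin (A B : ℕ) : nP (C (A : ℤ) + C (B : ℤ) * X) ≤ A + B := by
  refine (nP_add_le _ _).trans ?_
  have h2 : nP (X : ℤ[X]) = 1 := by
    have := nP_X_mul (1 : ℤ[X])
    have h1 : nP (1 : ℤ[X]) = 1 := by
      have := nP_C 1
      simpa using this
    rwa [mul_one, h1] at this
  rw [nP_C, nP_C_mul, h2]
  simp

theorem Hd_nP (A B D : ℕ) : ∀ (n : ℕ) (p : List ℤ),
    nP (Hd A B D n p) ≤ hb (A + B) (D * 2) n p
  | 0, _ => by simp [Hd, hb, nP_zero]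
  | n + 1, [] => by simp [Hd, hb, nP_zero]
  | n + 1, c :: p => by
    rw [Hd, hb]
    show _ ≤ c.natAbs * (D * 2) ^ (n + 1) + (A + B) * hb (A + B) (D * 2) n p
    refine (nP_add_le _ _).trans (Nat.add_le_add ?_ ?_)
    · rw [nP_C_mul]
      refine Nat.mul_le_mul_left _ ((nP_pow_le _ _).trans (Nat.pow_le_pow_left ?_ _))
      rw [nP_C_mul]
      simp only [Int.natAbs_natCast]
      exact Nat.mul_le_mul_left _ nP_one_add
    · refine (nP_mul_le _ _).trans (Nat.mul_le_mul (nP_lin A B) (Hd_nP A B D n p))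

theorem Hd_aeval (A B D : ℕ) {q t : ℝ} (hq : (A : ℝ) + B * t = q * (D * (1 + t))) :
    ∀ (n : ℕ) (p : List ℤ), p.length ≤ n →
      aeval t (Hd A B D n p) = (D * (1 + t)) ^ n * ev p q
  | n, [] => fun _ => by cases n <;> simp [Hd, ev]
  | 0, c :: p => fun h => by simp at h
  | n + 1, c :: p => fun h => by
    have ih := Hd_aeval A B D hq n p (by simpa using h)
    rw [Hd, map_add, map_mul, map_mul, ih, ev]
    simp only [map_add, map_mul, map_pow, aeval_X, map_one, eq_intCast,
      map_intCast, map_natCast]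
    rw [hq]
    ring

/-- positivity of `p` between `A / D` and `B / D` -/
def posI (T A B D : ℕ) (p : List ℤ) : Bool :=
  match hv (Int.ofNat (Nat.add A (Nat.mul B T))) (Nat.mul D (Nat.add 1 T)) p.length p with
  | Int.ofNat v => Nat.blt 0 v &&
      Nat.blt (Nat.add (dsum T (p.length + 1) v) (hb (Nat.add A B) (Nat.mul D 2) p.length p)) T
  | Int.negSucc _ => false

theorem posI_sound {T A B D : ℕ} {p : List ℤ} (h : posI T A B D p = true) (hD : 0 < D) {q : ℝ}
    (h1 : (A : ℝ) < q * D) (h2 : q * D < B) : 0 < ev p q := by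
  unfold posI at h
  have hX : Int.ofNat (Nat.add A (Nat.mul B T)) = (A : ℤ) + B * T := by
    show (((A + B * T : ℕ)) : ℤ) = _
    push_cast; rfl
  have hY : Nat.mul D (Nat.add 1 T) = D * (1 + T) := rfl
  rw [hX, hY] at h
  cases hV : hv ((A : ℤ) + B * T) (D * (1 + T)) p.length p with
  | negSucc v => rw [hV] at h; simp at h
  | ofNat v =>
    rw [hV] at h
    simp only [Bool.and_eq_true] at h
    obtain ⟨h3, h4⟩ := h
    have h3' : 0 < v := Nat.le_of_ble_eq_true h3
    have h4' : dsum T (p.length + 1) v + hb (A + B) (D * 2) p.length p < T := Nat.le_of_ble_eq_true h4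
    have hT : 0 < T := by omega
    obtain ⟨h5, h6, h7⟩ := Qd_spec hT (p.length + 1) v (by omega)
    have h8 : Hd A B D p.length p = Qd T (p.length + 1) v := by
      refine eq_of_eval (B := T) ?_ ?_
      · have := Hd_nP A B D p.length p
        omega
      · rw [Hd_eval, h5, hV]
        rfl
    have hDr : (0 : ℝ) < D := by exact_mod_cast hD
    set t : ℝ := (q * D - A) / (B - q * D) with ht
    have ht0 : 0 < t := div_pos (by linarith) (by linarith)
    have hne : (B : ℝ) - q * D ≠ 0 := by linarith [h2] |> fun h : (0 : ℝ) < B - q * D => h.ne'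
    have hq : (A : ℝ) + B * t = q * (D * (1 + t)) := by
      rw [ht]
      field_simp
      ring
    have h9 := Hd_aeval A B D hq p.length p le_rfl
    rw [h8] at h9
    have h10 := (h7 t ht0).2 h3'
    rw [h9] at h10
    have h11 : (0 : ℝ) < (D * (1 + t)) ^ p.length := by positivity
    exact (mul_pos_iff_of_pos_left h11).1 h10

end Pool.Agent.H60.BL
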