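import Pool.Agent.H60.BL.Pair

/-! Check of the values of the products. -/

set_option autoImplicit false
set_option maxRecDepth 1000000

namespace Pool.Agent.H60.BL

open Pool.Agent.N467.BL

theorem uok2_0 : okU 2 rv2_0 ru2_0 = true := by decide +kernel

theorem uok2_1 : okU 2 rv2_1 ru2_1 = true := by decide +kernel

theorem uok2_2 : okU 2 rv2_2 ru2_2 = true := by decide +kernel

theorem uok2_3 : okU 2 rv2_3 ru2_3 = true := by decide +kernel

theorem uok2_4 : okU 2 rv2_4 ru2_4 = true := by decide +kernel

theorem uok2_5 : okU 2 rv2_5 ru2_5 = true := by decide +kernel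

theorem uok3_0 : okU 3 rv3_0 ru3_0 = true := by decide +kernel

theorem uok3_1 : okU 3 rv3_1 ru3_1 = true := by decide +kernel

theorem uok3_2 : okU 3 rv3_2 ru3_2 = true := by decide +kernel

theorem uok3_3 : okU 3 rv3_3 ru3_3 = true := by decide +kernel

theorem uok3_4 : okU 3 rv3_4 ru3_4 = true := by decide +kernel

theorem uok3_5 : okU 3 rv3_5 ru3_5 = true := by decide +kernel

theorem uok4_0 : okU 4 rv4_0 ru4_0 = true := by decide +kernel

theorem uok4_1 : okU 4 rv4_1 ru4_1 = true := by decide +kernel

theorem uok4_2 : okU 4 rv4_2 ru4_2 = true := by decide +kernel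

theorem uok4_3 : okU 4 rv4_3 ru4_3 = true := by decide +kernel

theorem uok4_4 : okU 4 rv4_4 ru4_4 = true := by decide +kernel

theorem uok4_5 : okU 4 rv4_5 ru4_5 = true := by decide +kernel

theorem uok4_6 : okU 4 rv4_6 ru4_6 = true := by decide +kernel

theorem uok4_7 : okU 4 rv4_7 ru4_7 = true := by decide +kernel

theorem uok4_8 : okU 4 rv4_8 ru4_8 = true := by decide +kernel

theorem uok4_9 : okU 4 rv4_9 ru4_9 = true := by decide +kernel

theorem uok4_10 : okU 4 rv4_10 ru4_10 = true := by decide +kernel

theorem uok4_11 : okU 4 rv4_11 ru4_11 = true := by decide +kernel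

theorem uok4_12 : okU 4 rv4_12 ru4_12 = true := by decide +kernel

theorem uok4_13 : okU 4 rv4_13 ru4_13 = true := by decide +kernel

theorem uok4_14 : okU 4 rv4_14 ru4_14 = true := by decide +kernel

theorem uok4_15 : okU 4 rv4_15 ru4_15 = true := by decide +kernel

theorem uok4_16 : okU 4 rv4_16 ru4_16 = true := by decide +kernel

theorem uok4_17 : okU 4 rv4_17 ru4_17 = true := by decide +kernel

theorem uok5_0 : okU 5 rv5_0 ru5_0 = true := by decide +kernel

theorem uok5_1 : okU 5 rv5_1 ru5_1 = true := by decide +kernel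

theorem uok5_2 : okU 5 rv5_2 ru5_2 = true := by decide +kernel

theorem uok5_3 : okU 5 rv5_3 ru5_3 = true := by decide +kernel

theorem uok5_4 : okU 5 rv5_4 ru5_4 = true := by decide +kernel

theorem uok5_5 : okU 5 rv5_5 ru5_5 = true := by decide +kernel

theorem uok5_6 : okU 5 rv5_6 ru5_6 = true := by decide +kernel

theorem uok5_7 : okU 5 rv5_7 ru5_7 = true := by decide +kernel

theorem uok5_8 : okU 5 rv5_8 ru5_8 = true := by decide +kernel

theorem uok5_9 : okU 5 rv5_9 ru5_9 = true := by decide +kernel

theorem uok5_10 : okU 5 rv5_10 ru5_10 = true := by decide +kernel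

theorem uok5_11 : okU 5 rv5_11 ru5_11 = true := by decide +kernel

theorem uok5_12 : okU 5 rv5_12 ru5_12 = true := by decide +kernel

theorem uok5_13 : okU 5 rv5_13 ru5_13 = true := by decide +kernel

theorem uok5_14 : okU 5 rv5_14 ru5_14 = true := by decide +kernel

theorem uok5_15 : okU 5 rv5_15 ru5_15 = true := by decide +kernel

theorem uok5_16 : okU 5 rv5_16 ru5_16 = true := by decide +kernel

theorem uok5_17 : okU 5 rv5_17 ru5_17 = true := by decide +kernel

theorem uok5_18 : okU 5 rv5_18 ru5_18 = true := by decide +kernel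

theorem uok6_0 : okU 6 rv6_0 ru6_0 = true := by decide +kernel

theorem uok6_1 : okU 6 rv6_1 ru6_1 = true := by decide +kernel

theorem uok6_2 : okU 6 rv6_2 ru6_2 = true := by decide +kernel

theorem uok6_3 : okU 6 rv6_3 ru6_3 = true := by decide +kernel

theorem uok6_4 : okU 6 rv6_4 ru6_4 = true := by decide +kernel

theorem uok6_5 : okU 6 rv6_5 ru6_5 = true := by decide +kernel

theorem uok6_6 : okU 6 rv6_6 ru6_6 = true := by decide +kernel

theorem uok6_7 : okU 6 rv6_7 ru6_7 = true := by decide +kernel

theorem uok6_8 : okU 6 rv6_8 ru6_8 = true := by decide +kernel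

theorem uok6_9 : okU 6 rv6_9 ru6_9 = true := by decide +kernel

theorem uok6_10 : okU 6 rv6_10 ru6_10 = true := by decide +kernel

theorem uok6_11 : okU 6 rv6_11 ru6_11 = true := by decide +kernel

theorem uok6_12 : okU 6 rv6_12 ru6_12 = true := by decide +kernel

theorem uok6_13 : okU 6 rv6_13 ru6_13 = true := by decide +kernel

theorem uok6_14 : okU 6 rv6_14 ru6_14 = true := by decide +kernel

theorem uok6_15 : okU 6 rv6_15 ru6_15 = true := by decide +kernel

theorem uok6_16 : okU 6 rv6_16 ru6_16 = true := by decide +kernel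

theorem uok6_17 : okU 6 rv6_17 ru6_17 = true := by decide +kernel

theorem uok6_18 : okU 6 rv6_18 ru6_18 = true := by decide +kernel

theorem uok6_19 : okU 6 rv6_19 ru6_19 = true := by decide +kernel

theorem uok6_20 : okU 6 rv6_20 ru6_20 = true := by decide +kernel

theorem uok6_21 : okU 6 rv6_21 ru6_21 = true := by decide +kernel

theorem uok6_22 : okU 6 rv6_22 ru6_22 = true := by decide +kernel

theorem uok6_23 : okU 6 rv6_23 ru6_23 = true := by decide +kernel

theorem uok6_24 : okU 6 rv6_24 ru6_24 = true := by decide +kernel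

theorem uok6_25 : okU 6 rv6_25 ru6_25 = true := by decide +kernel

theorem uok6_26 : okU 6 rv6_26 ru6_26 = true := by decide +kernel

theorem uok6_27 : okU 6 rv6_27 ru6_27 = true := by decide +kernel

end Pool.Agent.H60.BL
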