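import Pool.Agent.H60.BL.LC
import Pool.Agent.H60.BL.RepAll

/-! The redundant vectors of the library, the faces and the closing. -/

set_option autoImplicit false
set_option maxRecDepth 1000000

namespace Pool.Agent.H60.BL

open Finset Polynomial
open Pool.Agent.N467.BL
open Pool.Agent.N467.BL.ChkA (okVec_spec)
open Pool.Agent.TH389.BL (ev evv toP K K_gen K_map Lin ev_peq ev_bern_pos)

theorem okLs_spec (n : ℕ) : ∀ (vs : List (List (List ℤ))) (i : ℕ)
    (cs : List (List (ℕ × ℕ × ℕ × ℕ))), okLs n i vs cs = true → ∀ t (ht : t < vs.length),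
      ∃ c, okRp (Zx n) 21 5 68 15 (Nat.blt (i + t) (wLs n)) vs[t] c = true
  | [], _, _ => fun _ t ht => by simp at ht
  | _ :: _, _, [] => fun h => by simp [okLs] at h
  | v :: vs, i, c :: cs => fun h t ht => by
    simp only [okLs, Bool.and_eq_true] at h
    cases t with
    | zero => exact ⟨c, by simpa using h.1⟩
    | succ t =>
      obtain ⟨c', hc'⟩ := okLs_spec n vs (i + 1) cs h.2 t (by simpa using ht)
      refine ⟨c', ?_⟩
      rw [show i + (t + 1) = i + 1 + t by ring]
      simpa using hc'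

/-- all chunks of the list are checked -/
def LsOK (n : ℕ) : Prop := ∀ c, 32 * c < (Ls n).length →
  ∃ cs, okLs n (32 * c) (((Ls n).drop (32 * c)).take 32) cs = true

theorem ls2 : LsOK 2 := by
  intro c hc
  have hl : (Ls 2).length = 4 := lenL2
  rw [hl] at hc
  have : c < 1 := by omega
  interval_cases c
  · exact ⟨lc2_0, lok2_0⟩

theorem ls3 : LsOK 3 := by
  intro c hc
  have hl : (Ls 3).length = 8 := lenL3
  rw [hl] at hc
  have : c < 1 := by omega
  interval_cases c
  · exact ⟨lc3_0, lok3_0⟩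

theorem ls4 : LsOK 4 := by
  intro c hc
  have hl : (Ls 4).length = 18 := lenL4
  rw [hl] at hc
  have : c < 1 := by omega
  interval_cases c
  · exact ⟨lc4_0, lok4_0⟩

theorem ls5 : LsOK 5 := by
  intro c hc
  have hl : (Ls 5).length = 37 := lenL5
  rw [hl] at hc
  have : c < 2 := by omega
  interval_cases c
  · exact ⟨lc5_0, lok5_0⟩
  · exact ⟨lc5_1, lok5_1⟩

theorem ls6 : LsOK 6 := by
  intro c hc
  have hl : (Ls 6).length = 154 := lenL6
  rw [hl] at hc
  have : c < 5 := by omega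
  interval_cases c
  · exact ⟨lc6_0, lok6_0⟩
  · exact ⟨lc6_1, lok6_1⟩
  · exact ⟨lc6_2, lok6_2⟩
  · exact ⟨lc6_3, lok6_3⟩
  · exact ⟨lc6_4, lok6_4⟩

theorem lsAll {n : ℕ} (h2 : 2 ≤ n) (h6 : n ≤ 6) : LsOK n := by
  interval_cases n
  · exact ls2
  · exact ls3
  · exact ls4
  · exact ls5
  · exact ls6

/-- the vectors of the list belong to the cone -/
theorem ls_K {n : ℕ} (h2 : 2 ≤ n) (h6 : n ≤ 6) {q : ℝ} (hq1 : 21 / 5 < q) (hq2 : q < 68 / 15)
    (i : ℕ) (hi : i < (Ls n).length) :
    K q (Gx n) (wGx n) (decide (i < wLs n)) (evv (Ls n)[i] q) := by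
  have h1 : 32 * (i / 32) < (Ls n).length := lt_of_le_of_lt (Nat.mul_div_le i 32) hi
  obtain ⟨cs, hcs⟩ := lsAll h2 h6 (i / 32) h1
  have h3 : i % 32 < (((Ls n).drop (32 * (i / 32))).take 32).length := by
    rw [List.length_take, List.length_drop]
    have := Nat.mod_lt i (show 0 < 32 by norm_num)
    have := Nat.div_add_mod i 32
    omega
  obtain ⟨c, hc⟩ := okLs_spec n _ _ cs hcs (i % 32) h3
  rw [Nat.div_add_mod, blt_decide] at hc
  have e1 : (((Ls n).drop (32 * (i / 32))).take 32)[i % 32] = (Ls n)[i] := by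
    rw [List.getElem_take, List.getElem_drop]
    congr 1
    exact Nat.div_add_mod i 32
  rw [e1] at hc
  exact okRp_sound (Zx_ok h2 h6) (by norm_num) (by norm_num) hc (by push_cast; linarith)
    (by push_cast; linarith)

/-- the redundant vectors -/
theorem stageX {n : ℕ} (h2 : 2 ≤ n) (h6 : n ≤ 6) {q : ℝ} (hq1 : 21 / 5 < q) (hq2 : q < 68 / 15)
    {b : Bool} {x : ℕ → ℝ} (hx : K q (Ls n) (wLs n) b x) : K q (Gx n) (wGx n) b x := by
  refine K_map (f := fun x => x) Lin.id ?_ ?_ hx
  · intro g hg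
    obtain ⟨i, hi, rfl⟩ := List.mem_take_iff_getElem.1 hg
    have h := ls_K h2 h6 hq1 hq2 i (by omega)
    rwa [decide_eq_true (by omega : i < wLs n)] at h
  · intro g hg
    obtain ⟨i, hi, rfl⟩ := List.mem_iff_getElem.1 hg
    exact K_weaken' (ls_K h2 h6 hq1 hq2 i hi) fun h => by simp at h

theorem clN6 : (N6.all fun g => posI TT 63 68 15 (clP 6 g)) = true := by decide +kernel

/-- closing up -/
theorem close_posX {n : ℕ} (h2 : 2 ≤ n) (h6 : n ≤ 6) {q : ℝ} (hq1 : 21 / 5 < q) (hq2 : q < 68 / 15)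
    (x : ℕ → ℝ) (hx : K q (Gx n) (wGx n) true x) :
    0 < ∑ i ∈ range (PQ n).length, ev (clos n ((PQ n).getD i [])) q * x i := by
  have hq : 4 < q := by linarith
  have h := okC_all n (mem5' h2 h6)
  simp only [okC, Bool.and_eq_true, decide_eq_true_eq] at h
  obtain ⟨h3, h4⟩ := h
  refine (K_lin_pos (φ := fun x => ∑ i ∈ range (PQ n).length,
    ev (clos n ((PQ n).getD i [])) q * x i) ?_ ?_ ?_ ?_ hx).2 rfl
  · simp
  · intro x y
    simp only [mul_add, sum_add_distrib]
  · intro c x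
    rw [mul_sum]
    exact sum_congr rfl fun i _ => by ring
  · intro g hg
    change 0 < ∑ i ∈ range (PQ n).length, ev (clos n ((PQ n).getD i [])) q * evv g q i
    rw [← ev_clP]
    rcases mem_Gx hg with hg' | hg'
    · obtain ⟨c, hc⟩ := Pool.Agent.TH389.BL.exists_zip h3 hg'
      have h5 := List.all_eq_true.1 h4 _ hc
      simp only [Bool.and_eq_true] at h5
      rw [ev_peq h5.1]
      exact ev_bern_pos (tt_pos hq) one_pos' _ h5.2
    · obtain ⟨e6, hN⟩ := Nx_six h2 h6 hg'
      subst e6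
      exact posI_sound (List.all_eq_true.1 clN6 _ hN) (by norm_num) (by push_cast; linarith)
        (by push_cast; linarith)

end Pool.Agent.H60.BL
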